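import Mathlib

namespace Pool.Agent.Results.MP_edc67c_co.NotTranspose

abbrev Cell := ℕ × ℕ

/-- a standard Young tableau, listed as the cells of the entries `1, 2, …`: the cells are distinct
and every initial segment is a Young diagram -/
def IsSYT (T : List Cell) : Prop := T.Nodup ∧ ∀ P, P <+: T → IsLowerSet {c | c ∈ P}

def SYT : Type := {T : List Cell // IsSYT T}

/-- the tree: `T` is joined to the tableau obtained by deleting its largest entry -/
def tree : SimpleGraph SYT := SimpleGraph.fromRel fun S T => ∃ c, T.1 = S.1 ++ [c]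

def Symm (T : List Cell) : Prop := ∀ c ∈ T, c.swap ∈ T

/-- transpose the skew part above `T`, fix the non-descendants of `T` -/
def tr (T U : List Cell) : List Cell :=
  if T <+: U then T ++ (U.drop T.length).map Prod.swap else U

lemma flip {T S : List Cell} (hT : Symm T) (h : IsSYT (T ++ S)) : IsSYT (T ++ S.map Prod.swap) := by
  obtain ⟨h1, h2⟩ := h
  rw [List.nodup_append] at h1
  refine ⟨List.nodup_append.2 ⟨h1.1, h1.2.1.map Prod.swap_injective, fun a ha b hb e => ?_⟩,
    fun P hP => ?_⟩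
  · obtain ⟨c, hc, rfl⟩ := List.mem_map.1 hb
    exact h1.2.2 _ (hT a ha) c hc (by simp [e])
  · rcases List.prefix_or_prefix_of_prefix hP (List.prefix_append T _) with h | ⟨Q, rfl⟩
    · exact h2 P (h.trans (List.prefix_append T S))
    · obtain ⟨R, hR, rfl⟩ := List.prefix_map_iff.1 ((List.prefix_append_right_inj T).1 hP)
      have := h2 (T ++ R) ((List.prefix_append_right_inj T).2 hR)
      have e : ∀ c, c ∈ T ++ R.map Prod.swap ↔ c.swap ∈ T ++ R := fun c => by
        simp only [List.mem_append, List.mem_map]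
        exact or_congr ⟨hT c, hT _⟩ ⟨by rintro ⟨d, h, rfl⟩; exact h, fun h => ⟨_, h, rfl⟩⟩
      intro a b hab ha
      exact (e b).2 (this (Prod.swap_le_swap.2 hab) ((e a).1 ha))

lemma tr_snoc (T U : List Cell) (c : Cell) :
    tr T (U ++ [c]) = tr T U ++ [if T <+: U then c.swap else c] := by
  by_cases h : T <+: U
  · obtain ⟨S, rfl⟩ := h
    simp [tr]
  · by_cases e : T = U ++ [c]
    · subst e; simp [tr, h]
    · simp [tr, h, List.prefix_concat_iff, e]

def T0 : List Cell := [(0, 0), (0, 1), (1, 0), (0, 2), (1, 1), (2, 0)]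

def Q (U : List Cell) : Prop := T0 ++ [(0, 3)] <+: U ∨ T0 ++ [(3, 0)] <+: U
instance : DecidablePred Q := fun _ => inferInstanceAs (Decidable (_ ∨ _))
def f (U : List Cell) : List Cell := if Q U then tr T0 U else U

lemma Q_cases {U : List Cell} (h : Q U) : ∃ S, U = T0 ++ S ∧ f U = T0 ++ S.map Prod.swap ∧
    Q (T0 ++ S.map Prod.swap) := by
  have h' := h
  rcases h with ⟨S, rfl⟩ | ⟨S, rfl⟩ <;> refine ⟨_, List.append_assoc _ _ _, ?_, ?_⟩
  · simp only [f, if_pos h']; simp [tr]
  · exact Or.inr ⟨S.map Prod.swap, by simp⟩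
  · simp only [f, if_pos h']; simp [tr]
  · exact Or.inl ⟨S.map Prod.swap, by simp⟩

lemma ff (U : List Cell) : f (f U) = U := by
  by_cases h : Q U
  · obtain ⟨S, rfl, h1, h2⟩ := Q_cases h
    rw [h1, f, if_pos h2]; simp [tr]
  · simp [f, h]

lemma f_syt {U : List Cell} (h : IsSYT U) : IsSYT (f U) := by
  by_cases hq : Q U
  · obtain ⟨S, rfl, h1, -⟩ := Q_cases hq
    rw [h1]; exact flip (by unfold Symm; decide) h
  · simpa [f, hq] using h

lemma f_snoc (U : List Cell) (c : Cell) : ∃ d, f (U ++ [c]) = f U ++ [d] := by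
  by_cases h : Q U
  · have : Q (U ++ [c]) := h.imp (·.trans (List.prefix_append _ _)) (·.trans (List.prefix_append _ _))
    exact ⟨_, by rw [f, f, if_pos h, if_pos this, tr_snoc]⟩
  · by_cases h2 : Q (U ++ [c])
    · have : U = T0 := by
        simp only [Q, List.prefix_concat_iff, not_or] at h h2
        rcases h2 with (e | e) | (e | e)
        exacts [(List.append_inj_left' e rfl).symm, absurd e h.1, (List.append_inj_left' e rfl).symm,
          absurd e h.2]
      subst this
      exact ⟨c.swap, by rw [f, f, if_neg h, if_pos h2, tr_snoc]; simp [tr]⟩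
    · exact ⟨c, by rw [f, f, if_neg h, if_neg h2]⟩

def φ : tree ≃g tree where
  toEquiv := Function.Involutive.toPerm (fun U => ⟨f U.1, f_syt U.2⟩) fun U => Subtype.ext (ff U.1)
  map_rel_iff' := by
    have key : ∀ S T : List Cell, (∃ c, f T = f S ++ [c]) ↔ ∃ c, T = S ++ [c] := fun S T =>
      ⟨fun ⟨c, h⟩ => by simpa [← h, ff] using f_snoc (f S) c, fun ⟨c, h⟩ => h ▸ f_snoc S c⟩
    intro a b
    simp only [tree, SimpleGraph.fromRel_adj, ne_eq, EmbeddingLike.apply_eq_iff_eq]
    exact and_congr_right' (or_congr (key _ _) (key _ _))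

lemma comp (L : List SYT) (U : List Cell) :
    (∀ c, L.foldr (fun T => tr T.1) (U ++ [c]) = L.foldr (fun T => tr T.1) U ++ [c]) ∨
    ∀ c, L.foldr (fun T => tr T.1) (U ++ [c]) = L.foldr (fun T => tr T.1) U ++ [c.swap] := by
  induction L with
  | nil => exact Or.inl fun _ => rfl
  | cons T L ih =>
    simp only [List.foldr_cons]
    by_cases h : T.1 <+: L.foldr (fun T => tr T.1) U <;> rcases ih with ih | ih <;>
      simp [ih, tr_snoc, h]

lemma syt (c : Cell) (h : c = (0, 3) ∨ c = (1, 2)) : IsSYT (T0 ++ [c]) := by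
  have key : ∀ P : List Cell, (∀ a ∈ P, ∀ i ≤ a.1, ∀ j ≤ a.2, (i, j) ∈ P) → IsLowerSet {c | c ∈ P} :=
    fun P h a b hab ha => h a ha _ hab.1 _ hab.2
  rcases h with rfl | rfl <;> refine ⟨by decide, fun P hP => key P ?_⟩ <;>
    rw [← List.mem_inits] at hP <;> revert P <;> decide

theorem result : ∃ (φ : tree ≃g tree) (N : ℕ), ∀ L : List SYT, (∀ T ∈ L, Symm T.1) →
    ¬ ∀ U : SYT, U.1.length ≤ N → (φ U).1 = L.foldr (fun T => tr T.1) U.1 := by
  refine ⟨φ, 7, fun L _ h => ?_⟩
  have h1 : f (T0 ++ [(0, 3)]) = L.foldr (fun T => tr T.1) (T0 ++ [(0, 3)]) :=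
    h ⟨_, syt _ (Or.inl rfl)⟩ (by decide)
  have h2 : f (T0 ++ [(1, 2)]) = L.foldr (fun T => tr T.1) (T0 ++ [(1, 2)]) :=
    h ⟨_, syt _ (Or.inr rfl)⟩ (by decide)
  rcases comp L T0 with e | e
  · rw [e] at h1
    exact absurd (congrArg List.getLast? h1) (by rw [List.getLast?_concat]; decide)
  · rw [e] at h2
    exact absurd (congrArg List.getLast? h2) (by rw [List.getLast?_concat]; decide)

end Pool.Agent.Results.MP_edc67c_co.NotTranspose
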